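import Mathlib
import Pool.Agent.H242.GX.Stm

set_option autoImplicit false

open Set Filter Topology
open scoped ContDiff

namespace Pool.Agent.H653.GX

open Pool.Agent.H242.GX

theorem core (p φ r : ℝ → ℝ) (θ : ℝ) (hp : ContDiff ℝ ∞ p) (hρ : 0 < rho p θ)
    (hφ : ContDiff ℝ ∞ φ) (hr : ContDiff ℝ ∞ r) (h0 : φ 0 = θ) (hr0 : r 0 = 0)
    (hrel : ∀ t : ℝ, Psi p (φ t) (r t ^ 2) = gam p θ + t • e θ) (hr1 : 0 < deriv r 0) :
    deriv φ 0 = 1 / rho p θ ∧ (deriv r 0) ^ 2 = 1 / (2 * rho p θ) ∧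
      deriv (deriv r) 0 = - (deriv r 0) * deriv (rho p) θ / (3 * rho p θ ^ 2) := by
  obtain ⟨dp, sp1⟩ := contDiff_infty_iff_deriv.mp hp
  obtain ⟨dp1, sp2⟩ := contDiff_infty_iff_deriv.mp sp1
  obtain ⟨dφ, sφ1⟩ := contDiff_infty_iff_deriv.mp hφ
  obtain ⟨dφ1, -⟩ := contDiff_infty_iff_deriv.mp sφ1
  obtain ⟨dr, sr1⟩ := contDiff_infty_iff_deriv.mp hr
  obtain ⟨dr1, sr2⟩ := contDiff_infty_iff_deriv.mp sr1
  obtain ⟨dr2, -⟩ := contDiff_infty_iff_deriv.mp sr2
  have dρ : Differentiable ℝ (rho p) := by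
    have : ContDiff ℝ ∞ (rho p) := hp.add sp2
    exact (contDiff_infty_iff_deriv.mp this).1
  have Hφ : ∀ t, HasDerivAt φ (deriv φ t) t := fun t => (dφ t).hasDerivAt
  have Hφ1 : ∀ t, HasDerivAt (deriv φ) (deriv (deriv φ) t) t := fun t => (dφ1 t).hasDerivAt
  have Hr : ∀ t, HasDerivAt r (deriv r t) t := fun t => (dr t).hasDerivAt
  have Hr1 : ∀ t, HasDerivAt (deriv r) (deriv (deriv r) t) t := fun t => (dr1 t).hasDerivAt
  have Hr2 : ∀ t, HasDerivAt (deriv (deriv r)) (deriv (deriv (deriv r)) t) t :=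
    fun t => (dr2 t).hasDerivAt
  have Hp : ∀ t, HasDerivAt (fun t => p (φ t)) (deriv p (φ t) * deriv φ t) t :=
    fun t => ((dp (φ t)).hasDerivAt).comp t (Hφ t)
  have Hp1 : ∀ t, HasDerivAt (fun t => deriv p (φ t)) (deriv (deriv p) (φ t) * deriv φ t) t :=
    fun t => ((dp1 (φ t)).hasDerivAt).comp t (Hφ t)
  have Hρ : ∀ t, HasDerivAt (fun t => rho p (φ t)) (deriv (rho p) (φ t) * deriv φ t) t :=
    fun t => ((dρ (φ t)).hasDerivAt).comp t (Hφ t)
  have Hs : ∀ t, HasDerivAt (fun t => Real.sin (φ t)) (Real.cos (φ t) * deriv φ t) t :=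
    fun t => (Hφ t).sin
  have Hc : ∀ t, HasDerivAt (fun t => Real.cos (φ t)) (-Real.sin (φ t) * deriv φ t) t :=
    fun t => (Hφ t).cos
  have Hcn : ∀ t, HasDerivAt (fun t => -Real.cos (φ t)) (Real.sin (φ t) * deriv φ t) t := by
    intro t
    exact (Hc t).neg.congr_deriv (by ring)
  have Hrr : ∀ t, HasDerivAt (fun t => r t ^ 2) (2 * r t * deriv r t) t := by
    intro t
    exact ((Hr t).pow 2).congr_deriv (by simp)
  -- components of the relation
  have hre : ∀ t : ℝ, p (φ t) * Real.sin (φ t) + deriv p (φ t) * Real.cos (φ t) +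
      r t ^ 2 * Real.sin (φ t) = (gam p θ).re + t * Real.cos θ := by
    intro t
    have := congrArg Complex.re (hrel t)
    simp only [Psi, Complex.add_re, Complex.smul_re, smul_eq_mul] at this
    rw [← show (gam p (φ t)).re = p (φ t) * Real.sin (φ t) + deriv p (φ t) * Real.cos (φ t) by
      simp only [gam, nu, e, Complex.add_re, Complex.smul_re, smul_eq_mul]]
    exact this
  have him : ∀ t : ℝ, p (φ t) * (-Real.cos (φ t)) + deriv p (φ t) * Real.sin (φ t) +
      r t ^ 2 * (-Real.cos (φ t)) = (gam p θ).im + t * Real.sin θ := by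
    intro t
    have := congrArg Complex.im (hrel t)
    simp only [Psi, Complex.add_im, Complex.smul_im, smul_eq_mul] at this
    rw [← show (gam p (φ t)).im = p (φ t) * (-Real.cos (φ t)) + deriv p (φ t) * Real.sin (φ t) by
      simp only [gam, nu, e, Complex.add_im, Complex.smul_im, smul_eq_mul]]
    exact this
  have hre' : ∀ t : ℝ, (rho p (φ t) + r t ^ 2) * deriv φ t * Real.cos (φ t) +
      2 * r t * deriv r t * Real.sin (φ t) = Real.cos θ := by
    intro t
    have h1 := (((Hp t).mul (Hs t)).add ((Hp1 t).mul (Hc t))).add ((Hrr t).mul (Hs t))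
    have h2 : HasDerivAt (fun t : ℝ => (gam p θ).re + t * Real.cos θ) (1 * Real.cos θ) t :=
      ((hasDerivAt_id t).mul_const (Real.cos θ)).const_add _
    have h3 := h1.unique (h2.congr_of_eventuallyEq (Filter.Eventually.of_forall hre))
    unfold rho
    linear_combination h3
  have him' : ∀ t : ℝ, (rho p (φ t) + r t ^ 2) * deriv φ t * Real.sin (φ t) -
      2 * r t * deriv r t * Real.cos (φ t) = Real.sin θ := by
    intro t
    have h1 := (((Hp t).mul (Hcn t)).add ((Hp1 t).mul (Hs t))).add ((Hrr t).mul (Hcn t))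
    have h2 : HasDerivAt (fun t : ℝ => (gam p θ).im + t * Real.sin θ) (1 * Real.sin θ) t :=
      ((hasDerivAt_id t).mul_const (Real.sin θ)).const_add _
    have h3 := h1.unique (h2.congr_of_eventuallyEq (Filter.Eventually.of_forall him))
    unfold rho
    linear_combination h3
  have e1 : ∀ t : ℝ, (rho p (φ t) + r t ^ 2) * deriv φ t = Real.cos (φ t - θ) := by
    intro t
    rw [Real.cos_sub]
    have hsc := Real.sin_sq_add_cos_sq (φ t)
    linear_combination Real.cos (φ t) * hre' t + Real.sin (φ t) * him' t -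
      (rho p (φ t) + r t ^ 2) * deriv φ t * hsc
  have e2 : ∀ t : ℝ, 2 * r t * deriv r t = Real.sin (φ t - θ) := by
    intro t
    rw [Real.sin_sub]
    have hsc := Real.sin_sq_add_cos_sq (φ t)
    linear_combination Real.sin (φ t) * hre' t - Real.cos (φ t) * him' t -
      2 * r t * deriv r t * hsc
  have Hsd : ∀ t, HasDerivAt (fun t => Real.sin (φ t - θ)) (Real.cos (φ t - θ) * deriv φ t) t :=
    fun t => ((Hφ t).sub_const θ).sin
  have Hcd : ∀ t, HasDerivAt (fun t => Real.cos (φ t - θ)) (-Real.sin (φ t - θ) * deriv φ t) t :=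
    fun t => ((Hφ t).sub_const θ).cos
  -- derivative of e2
  have e3 : ∀ t : ℝ, 2 * deriv r t ^ 2 + 2 * r t * deriv (deriv r) t =
      Real.cos (φ t - θ) * deriv φ t := by
    intro t
    have h1 := ((Hr t).const_mul 2).mul (Hr1 t)
    have h3 := h1.unique ((Hsd t).congr_of_eventuallyEq (Filter.Eventually.of_forall e2))
    linear_combination h3
  have e4 : 2 * (2 * deriv r 0 * deriv (deriv r) 0) +
      (2 * deriv r 0 * deriv (deriv r) 0 + 2 * r 0 * deriv (deriv (deriv r)) 0) =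
      -Real.sin (φ 0 - θ) * deriv φ 0 * deriv φ 0 + Real.cos (φ 0 - θ) * deriv (deriv φ) 0 := by
    have h1 := (((Hr1 0).pow 2).const_mul 2).add (((Hr 0).const_mul 2).mul (Hr2 0))
    have h2 := (Hcd 0).mul (Hφ1 0)
    have h3 := h1.unique (h2.congr_of_eventuallyEq (Filter.Eventually.of_forall e3))
    simp only [Nat.cast_ofNat, Nat.add_one_sub_one, pow_one] at h3
    linear_combination h3
  have e5 : (deriv (rho p) (φ 0) * deriv φ 0 + 2 * r 0 * deriv r 0) * deriv φ 0 +
      (rho p (φ 0) + r 0 ^ 2) * deriv (deriv φ) 0 = -Real.sin (φ 0 - θ) * deriv φ 0 := by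
    have h1 := ((Hρ 0).add (Hrr 0)).mul (Hφ1 0)
    exact h1.unique ((Hcd 0).congr_of_eventuallyEq (Filter.Eventually.of_forall e1))
  have f1 := e1 0
  have f3 := e3 0
  rw [h0, hr0] at f1 e5 e4 f3
  simp only [sub_self, Real.sin_zero, Real.cos_zero] at f1 e5 e4 f3
  set ρ := rho p θ with hρd
  set ρ' := deriv (rho p) θ with hρ'd
  set a := deriv φ 0 with ha
  set b := deriv r 0 with hb
  set c := deriv (deriv r) 0 with hc
  set d := deriv (deriv φ) 0 with hd
  have g1 : a = 1 / ρ := by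
    field_simp
    linear_combination f1
  have g2 : b ^ 2 = 1 / (2 * ρ) := by
    have : 2 * b ^ 2 = a := by linear_combination f3
    rw [g1] at this
    field_simp at this ⊢
    linear_combination this
  refine ⟨g1, g2, ?_⟩
  have g3 : 6 * b * c = d := by linear_combination e4
  have g4 : ρ' * a ^ 2 + ρ * d = 0 := by linear_combination e5
  have hbne : b ≠ 0 := hr1.ne'
  have ha1 : ρ * a = 1 := by linear_combination f1
  have hb1 : 2 * ρ * b ^ 2 = 1 := by
    rw [g2]; field_simp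
  -- 6 b c ρ = -ρ' a²
  have g5 : 6 * b * c * ρ ^ 3 = -ρ' := by
    have h1 : ρ' * (ρ * a) ^ 2 + ρ ^ 3 * d = 0 := by linear_combination ρ ^ 2 * g4
    rw [ha1] at h1
    rw [g3]
    linear_combination h1
  have g6 : 3 * ρ ^ 2 * c = -b * ρ' := by
    linear_combination (-3 * ρ ^ 2 * c) * hb1 + b * g5
  rw [eq_div_iff (by positivity)]
  linear_combination g6

theorem gx_DER : S_DER := by
  intro p X Z hW θ
  have hXs : ContDiff ℝ ∞ (fun t : ℝ => X (θ, t)) :=
    hW.smX.comp (contDiff_const.prodMk contDiff_id)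
  have hax := hW.axis θ
  exact core p (fun t => (X (θ, t)).1) (fun t => (X (θ, t)).2) θ hW.supp.smooth
    (hW.supp.pos θ) (contDiff_fst.comp hXs) (contDiff_snd.comp hXs)
    (by simp [hax]) (by simp [hax]) (fun t => hW.rel θ t) (hW.der2 θ)

end Pool.Agent.H653.GX
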